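import Pool.Agent.H83.VU.TargetsG

/-!
# GAP: the spectral gap for `p ^ (i u)`
-/

set_option autoImplicit false

open Finset Pool.Agent.H83.VU

namespace Pool.Agent.H62.VU.GAP

open Pool.Agent.H31.MP (Me)

theorem pow_sub_le {a z : ℂ} (ha : ‖a‖ = 1) (hz : ‖z‖ = 1) (m : ℕ) :
    ‖a ^ m - z ^ m‖ ≤ m * ‖a - z‖ := by
  induction m with
  | zero => simp
  | succ m ih =>
    have h1 : a ^ (m + 1) - z ^ (m + 1) = a ^ m * (a - z) + (a ^ m - z ^ m) * z := by ring
    rw [h1]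
    refine (norm_add_le _ _).trans ?_
    rw [norm_mul, norm_mul, norm_pow, ha, one_pow, one_mul, hz, mul_one]
    push_cast
    linarith

/-- the first moment of the powers -/
theorem first_moment (T : Finset ℕ) (u : ℝ) (z : ℂ) (hz : ‖z‖ = 1) (m M : ℕ) (hm : m ≤ M)
    (hM : 0 < M) (ε δ D c : ℝ) (hD : ∑ p ∈ T, 1 / (p : ℝ) ≤ D) (hD0 : 0 < D) (hδ : 0 < δ)
    (hε : ε = δ / (2 * D)) (hzm : ‖z ^ m - 1‖ ≤ ε) (hc : c = (δ / (2 * M)) ^ 2 / D)
    (hS : ∑ p ∈ T, 1 / (p : ℝ) * ‖ni u p - z‖ ^ 2 ≤ c) :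
    ∑ p ∈ T, 1 / (p : ℝ) * ‖ni (m * u) p - 1‖ ≤ δ := by
  have hM' : (0 : ℝ) < M := by exact_mod_cast hM
  have h1 : (∑ p ∈ T, 1 / (p : ℝ) * ‖ni u p - z‖) ^ 2 ≤
      (∑ p ∈ T, 1 / (p : ℝ)) * ∑ p ∈ T, 1 / (p : ℝ) * ‖ni u p - z‖ ^ 2 := by
    apply Finset.sum_sq_le_sum_mul_sum_of_sq_eq_mul
    · intro p _
      positivity
    · intro p _
      positivity
    · intro p _
      ring
  have h2 : (∑ p ∈ T, 1 / (p : ℝ) * ‖ni u p - z‖) ^ 2 ≤ (δ / (2 * M)) ^ 2 := by
    refine h1.trans ?_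
    calc (∑ p ∈ T, 1 / (p : ℝ)) * ∑ p ∈ T, 1 / (p : ℝ) * ‖ni u p - z‖ ^ 2 ≤ D * c :=
          mul_le_mul hD hS (sum_nonneg fun _ _ => by positivity) hD0.le
      _ = _ := by rw [hc]; field_simp
  have h3 : ∑ p ∈ T, 1 / (p : ℝ) * ‖ni u p - z‖ ≤ δ / (2 * M) :=
    (abs_le_of_sq_le_sq' h2 (by positivity)).2
  calc ∑ p ∈ T, 1 / (p : ℝ) * ‖ni (m * u) p - 1‖
      ≤ ∑ p ∈ T, (M * (1 / (p : ℝ) * ‖ni u p - z‖) + ε * (1 / (p : ℝ))) := by
        apply sum_le_sum
        intro p _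
        have h4 : ‖ni (m * u) p - 1‖ ≤ M * ‖ni u p - z‖ + ε := by
          rw [← ni_pow]
          calc ‖ni u p ^ m - 1‖ = ‖(ni u p ^ m - z ^ m) + (z ^ m - 1)‖ := by ring_nf
            _ ≤ ‖ni u p ^ m - z ^ m‖ + ‖z ^ m - 1‖ := norm_add_le _ _
            _ ≤ m * ‖ni u p - z‖ + ε := add_le_add (pow_sub_le (norm_ni u p) hz m) hzm
            _ ≤ M * ‖ni u p - z‖ + ε := by
              have : (m : ℝ) ≤ M := by exact_mod_cast hm
              gcongr
        calc 1 / (p : ℝ) * ‖ni (m * u) p - 1‖ ≤ 1 / (p : ℝ) * (M * ‖ni u p - z‖ + ε) :=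
              mul_le_mul_of_nonneg_left h4 (by positivity)
          _ = _ := by ring
    _ = M * (∑ p ∈ T, 1 / (p : ℝ) * ‖ni u p - z‖) + ε * ∑ p ∈ T, 1 / (p : ℝ) := by
        rw [sum_add_distrib, ← mul_sum, ← mul_sum]
    _ ≤ M * (δ / (2 * M)) + ε * D := by
        have hε0 : 0 ≤ ε := by rw [hε]; positivity
        gcongr
    _ = δ := by
        rw [hε]
        field_simp
        ring

/-- dyadic blocks -/
theorem blocks (P : ℝ) (Y i₀ i₁ : ℕ) (hY : 2 ^ i₁ ≤ Y) (f : ℕ → ℝ) (hf : ∀ n, 0 ≤ f n) :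
    ∑ i ∈ Ico i₀ i₁, (1 / (2 : ℝ) ^ (i + 1)) * ∑ n ∈ RO P (2 ^ i), f n ≤
      ∑ n ∈ RR P Y, 1 / (n : ℝ) * f n := by
  classical
  have hdisj : (↑(Ico i₀ i₁) : Set ℕ).PairwiseDisjoint fun i => RO P (2 ^ i) := by
    have key : ∀ i j n : ℕ, i < j → n ∈ RO P (2 ^ i) → n ∈ RO P (2 ^ j) → False := by
      intro i j n hij h1 h2
      unfold RO at h1 h2
      rw [mem_filter, mem_Ioc] at h1 h2
      have h3 : 2 * 2 ^ i ≤ 2 ^ j := by
        rw [← pow_succ']
        exact Nat.pow_le_pow_right (by norm_num) hij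
      omega
    intro i _ j _ hij
    rw [Function.onFun, Finset.disjoint_left]
    intro n h1 h2
    rcases lt_or_gt_of_ne hij with h | h
    · exact key i j n h h1 h2
    · exact key j i n h h2 h1
  calc ∑ i ∈ Ico i₀ i₁, (1 / (2 : ℝ) ^ (i + 1)) * ∑ n ∈ RO P (2 ^ i), f n
      ≤ ∑ i ∈ Ico i₀ i₁, ∑ n ∈ RO P (2 ^ i), 1 / (n : ℝ) * f n := by
        apply sum_le_sum
        intro i _
        rw [mul_sum]
        apply sum_le_sum
        intro n hn
        unfold RO at hn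
        rw [mem_filter, mem_Ioc] at hn
        have h1 : (n : ℝ) ≤ 2 ^ (i + 1) := by
          rw [pow_succ']
          exact_mod_cast hn.1.2
        have h2 : (0 : ℝ) < n := by
          have : 0 < n := by omega
          exact_mod_cast this
        exact mul_le_mul_of_nonneg_right (one_div_le_one_div_of_le h2 h1) (hf n)
    _ = ∑ n ∈ (Ico i₀ i₁).biUnion fun i => RO P (2 ^ i), 1 / (n : ℝ) * f n :=
        (sum_biUnion hdisj).symm
    _ ≤ ∑ n ∈ RR P Y, 1 / (n : ℝ) * f n := by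
        apply sum_le_sum_of_subset_of_nonneg
        · intro n hn
          rw [mem_biUnion] at hn
          obtain ⟨i, hi, hn⟩ := hn
          rw [mem_Ico] at hi
          unfold RO at hn
          unfold RR
          rw [mem_filter, mem_Ioc] at hn
          rw [mem_filter, mem_Icc]
          have h3 : 2 * 2 ^ i ≤ 2 ^ i₁ := by
            rw [← pow_succ']
            exact Nat.pow_le_pow_right (by norm_num) hi.2
          exact ⟨⟨by omega, by omega⟩, hn.2⟩
        · intro n _ _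
          have := hf n
          positivity

/-- the number of bad blocks -/
theorem bad_count (I : Finset ℕ) (E : ℕ → ℝ) (η V A : ℝ) (hη : 0 < η) (hV : 0 < V)
    (hE : ∀ i, 0 ≤ E i)
    (h : ∑ i ∈ I, (1 / (2 : ℝ) ^ (i + 1)) * E i ≤ A) :
    ((I.filter fun i => ¬ E i ≤ η * (2 ^ i * V)).card : ℝ) * (η * V / 2) ≤ A := by
  calc ((I.filter fun i => ¬ E i ≤ η * (2 ^ i * V)).card : ℝ) * (η * V / 2)
      = ∑ i ∈ I.filter (fun i => ¬ E i ≤ η * (2 ^ i * V)), η * V / 2 := by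
        rw [sum_const, nsmul_eq_mul]
    _ ≤ ∑ i ∈ I.filter (fun i => ¬ E i ≤ η * (2 ^ i * V)), (1 / (2 : ℝ) ^ (i + 1)) * E i := by
        apply sum_le_sum
        intro i hi
        rw [mem_filter, not_le] at hi
        have h1 : (0 : ℝ) < 2 ^ i := by positivity
        calc η * V / 2 = (1 / (2 : ℝ) ^ (i + 1)) * (η * (2 ^ i * V)) := by
              rw [pow_succ]
              field_simp
          _ ≤ _ := mul_le_mul_of_nonneg_left hi.2.le (by positivity)
    _ ≤ ∑ i ∈ I, (1 / (2 : ℝ) ^ (i + 1)) * E i :=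
        sum_le_sum_of_subset_of_nonneg (filter_subset _ _) fun i _ _ =>
          mul_nonneg (by positivity) (hE i)
    _ ≤ A := h

theorem ni_two_pow (u : ℝ) (i : ℕ) :
    ni u (2 ^ i) = Complex.exp ((u * Real.log 2 * i : ℝ) * Complex.I) := by
  unfold ni
  congr 2
  norm_cast
  push_cast
  rw [Real.log_pow]
  ring

theorem ni_sub_le (u : ℝ) (a b : ℕ) : ‖ni u a - ni u b‖ ≤ |u| * |Real.log a - Real.log b| := by
  unfold ni
  have h1 : Complex.exp ((u * Real.log a : ℝ) * Complex.I) -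
      Complex.exp ((u * Real.log b : ℝ) * Complex.I) =
      Complex.exp ((u * Real.log b : ℝ) * Complex.I) *
        (Complex.exp (Complex.I * (u * (Real.log a - Real.log b) : ℝ)) - 1) := by
    rw [mul_sub, ← Complex.exp_add, mul_one]
    congr 2
    push_cast
    ring
  rw [h1, norm_mul, Complex.norm_exp_ofReal_mul_I, one_mul]
  refine (Real.norm_exp_I_mul_ofReal_sub_one_le).trans ?_
  rw [Real.norm_eq_abs, abs_mul]

end Pool.Agent.H62.VU.GAP

namespace Pool.Agent.H62.VU.GAP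

open Pool.Agent.H31.MP (Me)

/-- the scale -/
theorem scale (M N₀ : ℕ) : ∃ X₀ : ℝ, ∀ X : ℝ, X₀ ≤ X → 0 < X ∧
    3 ≤ Real.log X ^ (19 / 20 : ℝ) ∧ (N₀ : ℝ) ≤ Real.log X ^ (19 / 20 : ℝ) ∧ 0 ≤ Real.log X ∧
    3 * Real.log X + Real.log M ≤ Real.log X ^ (247 / 240 : ℝ) := by
  have h1 : Filter.Tendsto (fun X : ℝ => Real.log X ^ (19 / 20 : ℝ)) Filter.atTop Filter.atTop :=
    (tendsto_rpow_atTop (by norm_num)).comp Real.tendsto_log_atTop
  have h2 : Filter.Tendsto (fun X : ℝ => Real.log X ^ (7 / 240 : ℝ)) Filter.atTop Filter.atTop :=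
    (tendsto_rpow_atTop (by norm_num)).comp Real.tendsto_log_atTop
  have h3 := (((h1.eventually_ge_atTop 3).and (h1.eventually_ge_atTop (N₀ : ℝ))).and
    (h2.eventually_ge_atTop 4)).and ((Real.tendsto_log_atTop.eventually_ge_atTop
      (max 1 (Real.log M))).and (Filter.eventually_gt_atTop 0))
  obtain ⟨X₀, hX₀⟩ := Filter.eventually_atTop.1 h3
  refine ⟨X₀, fun X hX => ?_⟩
  obtain ⟨⟨⟨a1, a2⟩, a3⟩, a4, a5⟩ := hX₀ X hX
  have h4 : 1 ≤ Real.log X := (le_max_left _ _).trans a4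
  have h5 : Real.log M ≤ Real.log X := (le_max_right _ _).trans a4
  refine ⟨a5, a1, a2, by linarith, ?_⟩
  have h6 : Real.log X ^ (247 / 240 : ℝ) = Real.log X * Real.log X ^ (7 / 240 : ℝ) := by
    rw [show (247 / 240 : ℝ) = 1 + 7 / 240 by norm_num, Real.rpow_add (by linarith),
      Real.rpow_one]
  rw [h6]
  nlinarith

end Pool.Agent.H62.VU.GAP

namespace Pool.Agent.H62.VU

open GAP
open Pool.Agent.H31.MP (Me)

/-- GAP -/
theorem pf_GAP (hRGH : T_RGH) (hEIR : T_EIR) (hTR : T_TR) (hROT : T_ROT) (hPGN : T_PGN)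
    (hMET : T_MET) : T_GAP := by
  classical
  intro c₁ hc₁
  obtain ⟨c₂, hc₂, hc₂1, hTR⟩ := hTR
  set η : ℝ := c₂ / 100 with hη
  have hη0 : 0 < η := by positivity
  have hη1 : η ≤ 1 / 100 := by rw [hη]; linarith
  obtain ⟨B, N₀, hR⟩ := hRGH η hη0
  obtain ⟨C, hC, hMET⟩ := hMET
  set b' : ℕ := B + 12 + ⌈100 / c₁⌉₊ with hb'
  have hb12 : 12 ≤ b' := by omega
  have hb12' : (12 : ℝ) ≤ b' := by exact_mod_cast hb12
  have hbc : 100 ≤ b' * c₁ := by
    have h1 : 100 / c₁ ≤ ⌈100 / c₁⌉₊ := Nat.le_ceil _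
    have h2 : ((⌈100 / c₁⌉₊ : ℕ) : ℝ) ≤ b' := by
      rw [hb']
      push_cast
      have : (0 : ℝ) ≤ B := Nat.cast_nonneg _
      linarith
    rw [← div_le_iff₀ hc₁]
    linarith
  set b : ℕ := 2 * b' with hb
  set D : ℝ := C * b with hD
  have hbpos : (0 : ℝ) < b := by
    rw [hb]
    push_cast
    linarith
  have hD0 : 0 < D := by positivity
  set δ : ℝ := η / (200 * C ^ 2) with hδ
  have hδ0 : 0 < δ := by positivity
  obtain ⟨M, hM⟩ := hPGN (δ / (2 * D)) (by positivity)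
  have hMpos : 0 < M := by
    obtain ⟨m, h1, h2, -⟩ := hM 1 (by simp)
    omega
  have hM' : (0 : ℝ) < M := by exact_mod_cast hMpos
  obtain ⟨X₀, hX₀⟩ := scale M N₀
  refine ⟨b, (δ / (2 * M)) ^ 2 / D, X₀, by positivity, fun X P u hX hP hu1 hu2 z hz => ?_⟩
  obtain ⟨hX0, hx3, hxN, hx0, hxM⟩ := hX₀ X hX
  by_contra hcon
  rw [not_le] at hcon
  set L := Real.log P with hL
  set x := Real.log X with hx
  have hP0 : 0 < P := (Real.exp_pos _).trans_le hP
  have hLx : x ^ (19 / 20 : ℝ) ≤ L := by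
    rw [hL, Real.le_log_iff_exp_le hP0]
    exact hP
  have hL3 : 3 ≤ L := hx3.trans hLx
  have hLP : L ≤ P := by
    have := Real.add_one_le_exp L
    rw [hL, Real.exp_log hP0] at this
    linarith
  have hP3 : 3 ≤ P := hL3.trans hLP
  have hP1 : 1 ≤ P := by linarith
  have hPb : P ^ b = Real.exp (b * L) := by
    rw [mul_comm, Real.exp_mul, Real.exp_log hP0, Real.rpow_natCast]
  have hPb' : P ^ b' = Real.exp (b' * L) := by
    rw [mul_comm, Real.exp_mul, Real.exp_log hP0, Real.rpow_natCast]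
  obtain ⟨hs1, hs2, hs3, hs4⟩ := hMET P b (by linarith) (by omega)
  have hMe0 : 0 < Me P := lt_of_lt_of_le (by positivity) hs4
  -- the power
  obtain ⟨m, hm1, hmM, hzm⟩ := hM z hz
  set u' : ℝ := m * u with hu'
  have hm1' : (1 : ℝ) ≤ m := by exact_mod_cast hm1
  have hmM' : (m : ℝ) ≤ M := by exact_mod_cast hmM
  have hu'1 : c₁ / L ≤ |u'| := by
    rw [hu', abs_mul, Nat.abs_cast]
    calc c₁ / L ≤ 1 * |u| := by rw [one_mul]; exact hu1
      _ ≤ m * |u| := mul_le_mul_of_nonneg_right hm1' (abs_nonneg _)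
  have hu'2 : |u'| ≤ Real.exp (3 * x + Real.log M) := by
    rw [hu', abs_mul, Nat.abs_cast, Real.exp_add, Real.exp_log hM']
    have h1 : Real.exp (3 * x) = X ^ 3 := by
      rw [mul_comm, Real.exp_mul, hx, Real.exp_log hX0]
      norm_cast
    rw [h1]
    calc (m : ℝ) * |u| ≤ M * X ^ 3 := mul_le_mul hmM' hu2 (abs_nonneg _) hM'.le
      _ = _ := mul_comm _ _
  set Y := ⌊P ^ b⌋₊ with hY
  have hPQ : PQ P (Y : ℝ) = PQ P (P ^ b) := by
    unfold PQ
    rw [Nat.floor_natCast]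
  have hS1 : ∑ p ∈ PQ P (P ^ b), 1 / (p : ℝ) * ‖ni u' p - 1‖ ≤ δ :=
    first_moment (PQ P (P ^ b)) u z hz m M hmM hMpos (δ / (2 * D)) δ D _ hs1 hD0 hδ0 rfl hzm rfl
      hcon.le
  have hE := hEIR u' P Y hP1
  rw [hPQ] at hE
  have hprod0 : 0 ≤ ∏ p ∈ PQ P (P ^ b), (1 - 1 / (p : ℝ))⁻¹ := by
    apply prod_nonneg
    intro p hp
    unfold PQ at hp
    rw [mem_filter] at hp
    have h2 : (2 : ℝ) ≤ p := by exact_mod_cast hp.2.two_le
    have h3 : 1 / (p : ℝ) ≤ 1 / 2 := one_div_le_one_div_of_le (by norm_num) h2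
    rw [inv_nonneg]
    linarith
  have hRR : ∑ n ∈ RR P Y, 1 / (n : ℝ) * ‖ni u' n - 1‖ ≤ 2 * δ * D := by
    refine hE.trans ?_
    exact mul_le_mul (by linarith) hs2 hprod0 (by positivity)
  -- the blocks
  have hlog2 : 0 < Real.log 2 := Real.log_pos (by norm_num)
  have hlog2' : Real.log 2 < 0.6931471808 := Real.log_two_lt_d9
  have hlog2'' : 0.6931471803 < Real.log 2 := Real.log_two_gt_d9
  set i₀ := ⌈b' * L / Real.log 2⌉₊ with hi₀
  set i₁ := ⌊b * L / Real.log 2⌋₊ with hi₁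
  have hbL : 0 ≤ (b : ℝ) * L / Real.log 2 := by positivity
  have hi₁a : (i₁ : ℝ) * Real.log 2 ≤ b * L := by
    have := Nat.floor_le hbL
    rwa [le_div_iff₀ hlog2] at this
  have hi₁b : (b : ℝ) * L / Real.log 2 < i₁ + 1 := Nat.lt_floor_add_one _
  have hi₀a : (b' : ℝ) * L / Real.log 2 ≤ i₀ := Nat.le_ceil _
  have hi₀b : (i₀ : ℝ) < b' * L / Real.log 2 + 1 := Nat.ceil_lt_add_one (by positivity)
  have hdiff : (b' : ℝ) * L ≤ (i₁ : ℝ) - i₀ := by
    have h1 : (b : ℝ) * L / Real.log 2 = 2 * (b' * L / Real.log 2) := by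
      rw [hb]
      push_cast
      ring
    have h2 : (b' : ℝ) * L * 1.4 ≤ b' * L / Real.log 2 := by
      rw [le_div_iff₀ hlog2]
      have h0 : 0 ≤ (b' : ℝ) * L := by positivity
      calc (b' : ℝ) * L * 1.4 * Real.log 2 = (b' : ℝ) * L * (1.4 * Real.log 2) := by ring
        _ ≤ (b' : ℝ) * L * 1 := mul_le_mul_of_nonneg_left (by linarith) h0
        _ = (b' : ℝ) * L := mul_one _
    have h3 : 36 ≤ (b' : ℝ) * L := by
      calc (36 : ℝ) = 12 * 3 := by norm_num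
        _ ≤ b' * L := mul_le_mul hb12' hL3 (by norm_num) (by linarith)
    rw [h1] at hi₁b
    linarith
  have hi01 : i₀ ≤ i₁ := by
    have h1 : (i₀ : ℝ) ≤ i₁ := by
      have : 0 ≤ (b' : ℝ) * L := by positivity
      linarith
    exact_mod_cast h1
  set m₀ := i₁ - i₀ with hm₀
  have hm₀' : (m₀ : ℝ) = i₁ - i₀ := by
    rw [hm₀]
    push_cast [hi01]
    ring
  have hm₀L : (b' : ℝ) * L ≤ m₀ := by rw [hm₀']; exact hdiff
  have hm₀pos : 0 < (m₀ : ℝ) := lt_of_lt_of_le (by positivity) hm₀L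
  have h2Y : 2 ^ i₁ ≤ Y := by
    rw [hY]
    apply Nat.le_floor
    push_cast
    rw [hPb, ← Real.exp_log (by positivity : (0 : ℝ) < 2 ^ i₁), Real.log_pow]
    exact Real.exp_le_exp.2 hi₁a
  set E : ℕ → ℝ := fun i => ∑ n ∈ RO P (2 ^ i), ‖ni u' n - 1‖ with hEdef
  have hE0 : ∀ i, 0 ≤ E i := fun i => sum_nonneg fun _ _ => norm_nonneg _
  have hblocks : ∑ i ∈ Ico i₀ i₁, (1 / (2 : ℝ) ^ (i + 1)) * E i ≤ 2 * δ * D :=
    (blocks P Y i₀ i₁ h2Y (fun n => ‖ni u' n - 1‖) fun n => norm_nonneg _).trans hRR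
  have hbad := bad_count (Ico i₀ i₁) E η (Me P) (2 * δ * D) hη0 hMe0 hE0 hblocks
  set bad := (Ico i₀ i₁).filter (fun i => ¬ E i ≤ η * (2 ^ i * Me P)) with hbadd
  set good := (Ico i₀ i₁).filter (fun i => E i ≤ η * (2 ^ i * Me P)) with hgoodd
  have hcards : good.card + bad.card = m₀ := by
    rw [hgoodd, hbadd, Finset.card_filter_add_card_filter_not, Nat.card_Ico]
  have hbad2 : (bad.card : ℝ) ≤ m₀ / 25 := by
    have h1 : η / (2 * (C * L)) ≤ η * Me P / 2 := by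
      have : 1 / (C * L) ≤ Me P := hs4
      calc η / (2 * (C * L)) = η * (1 / (C * L)) / 2 := by field_simp
        _ ≤ _ := by gcongr
    have h2 : (bad.card : ℝ) * (η / (2 * (C * L))) ≤ 2 * δ * D :=
      (mul_le_mul_of_nonneg_left h1 (Nat.cast_nonneg _)).trans hbad
    have hCL : 0 < C * L := by positivity
    have h3 : (bad.card : ℝ) ≤ 2 * δ * D * (2 * (C * L)) / η := by
      rw [le_div_iff₀ hη0]
      calc (bad.card : ℝ) * η = (bad.card : ℝ) * (η / (2 * (C * L))) * (2 * (C * L)) := by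
            field_simp
        _ ≤ 2 * δ * D * (2 * (C * L)) := mul_le_mul_of_nonneg_right h2 (by positivity)
    have h4 : 2 * δ * D * (2 * (C * L)) / η = b' * L / 25 := by
      rw [hδ, hD, hb]
      push_cast
      field_simp
      ring
    rw [h4] at h3
    linarith
  have hgood2 : (24 / 25 : ℝ) * m₀ ≤ good.card := by
    have : (good.card : ℝ) + bad.card = m₀ := by exact_mod_cast hcards
    linarith
  -- the sieve at the good blocks
  have hcond : ∀ i ∈ good, |((RO P (2 ^ i)).card : ℝ) - 2 ^ i * Me P| ≤ η * (2 ^ i * Me P) ∧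
      ‖∑ n ∈ RO P (2 ^ i), ni u' n - 2 ^ i * Me P * (ni u' (2 ^ i) * mi u')‖ ≤
        η * (2 ^ i * Me P) ∧ E i ≤ η * (2 ^ i * Me P) := by
    intro i hi
    rw [hgoodd, mem_filter, mem_Ico] at hi
    have hi0 : (i₀ : ℝ) ≤ i := by exact_mod_cast hi.1.1
    have h1 : (b' : ℝ) * L ≤ i * Real.log 2 := by
      rw [← div_le_iff₀ hlog2]
      linarith
    have h2 : P ^ b' ≤ 2 ^ i := by
      rw [hPb', ← Real.exp_log (by positivity : (0 : ℝ) < 2 ^ i), Real.log_pow]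
      exact Real.exp_le_exp.2 h1
    have h3 : P ^ B ≤ ((2 ^ i : ℕ) : ℝ) := by
      push_cast
      refine (pow_le_pow_right₀ hP1 (by omega)).trans h2
    have h4 : N₀ ≤ 2 ^ i := by
      have h5 : (N₀ : ℝ) ≤ 2 ^ i := by
        calc (N₀ : ℝ) ≤ L := hxN.trans hLx
          _ ≤ P := hLP
          _ ≤ P ^ b' := le_self_pow₀ hP1 (by omega)
          _ ≤ 2 ^ i := h2
      exact_mod_cast h5
    have h5 : |u'| ≤ Real.exp ((Real.log ((2 ^ i : ℕ) : ℝ) / 4) ^ (13 / 12 : ℝ)) := by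
      refine hu'2.trans (Real.exp_le_exp.2 (hxM.trans ?_))
      have h6 : x ^ (247 / 240 : ℝ) = (x ^ (19 / 20 : ℝ)) ^ (13 / 12 : ℝ) := by
        rw [← Real.rpow_mul hx0]
        norm_num
      rw [h6]
      apply Real.rpow_le_rpow (by positivity) _ (by norm_num)
      push_cast
      rw [Real.log_pow]
      have : (12 : ℝ) * L ≤ b' * L := mul_le_mul_of_nonneg_right hb12' (by linarith)
      linarith
    have h6 := hR (2 ^ i) h4 P hP3 h3 u' h5
    push_cast at h6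
    exact ⟨h6.1, h6.2, hi.2⟩
  by_cases hbig : 1 / 10 ≤ |u'|
  · have hne : good.Nonempty := by
      rw [← card_pos]
      have : (0 : ℝ) < good.card := lt_of_lt_of_le (by positivity) hgood2
      exact_mod_cast this
    obtain ⟨i, hi⟩ := hne
    obtain ⟨h1, h2, h3⟩ := hcond i hi
    set V : ℝ := 2 ^ i * Me P with hV
    have hV0 : 0 < V := by positivity
    have h4 : ((RO P (2 ^ i)).card : ℝ) - E i ≤ ‖∑ n ∈ RO P (2 ^ i), ni u' n‖ := by
      have h5 : ((RO P (2 ^ i)).card : ℂ) =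
          ∑ n ∈ RO P (2 ^ i), ni u' n - ∑ n ∈ RO P (2 ^ i), (ni u' n - 1) := by
        rw [sum_sub_distrib]
        simp
      have h6 : ((RO P (2 ^ i)).card : ℝ) = ‖((RO P (2 ^ i)).card : ℂ)‖ := by simp
      rw [h6, h5]
      have h7 := norm_sub_le (∑ n ∈ RO P (2 ^ i), ni u' n) (∑ n ∈ RO P (2 ^ i), (ni u' n - 1))
      have h8 : ‖∑ n ∈ RO P (2 ^ i), (ni u' n - 1)‖ ≤ E i := norm_sum_le _ _
      linarith
    have h5 : ‖∑ n ∈ RO P (2 ^ i), ni u' n‖ ≤ (1 - c₂ + η) * V := by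
      have h6 : ∑ n ∈ RO P (2 ^ i), ni u' n = (∑ n ∈ RO P (2 ^ i), ni u' n -
          2 ^ i * Me P * (ni u' (2 ^ i) * mi u')) + 2 ^ i * Me P * (ni u' (2 ^ i) * mi u') := by
        ring
      rw [h6]
      refine (norm_add_le _ _).trans ?_
      have h7 : ‖(2 : ℂ) ^ i * Me P * (ni u' (2 ^ i) * mi u')‖ = V * ‖mi u'‖ := by
        rw [norm_mul, norm_mul, norm_mul, norm_ni, one_mul, norm_pow, Complex.norm_ofNat,
          Complex.norm_real, Real.norm_eq_abs, abs_of_pos hMe0, hV]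
      rw [h7]
      have h8 := mul_le_mul_of_nonneg_left (hTR u' hbig) hV0.le
      linarith
    have h6 := neg_le_of_abs_le h1
    have h7 : (1 - 2 * η) * V ≤ (1 - c₂ + η) * V := by linarith
    have h8 := le_of_mul_le_mul_right h7 hV0
    rw [hη] at h8
    linarith
  · rw [not_le] at hbig
    have hu0 : 0 < |u'| := lt_of_lt_of_le (by positivity) hu'1
    set θ := u' * Real.log 2 with hθ
    have hθa : |θ| = |u'| * Real.log 2 := by rw [hθ, abs_mul, abs_of_pos hlog2]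
    have hsm : |u'| * Real.log 2 ≤ 0.07 := by
      calc |u'| * Real.log 2 ≤ (1 / 10) * 0.7 :=
            mul_le_mul hbig.le (by linarith) hlog2.le (by norm_num)
        _ = 0.07 := by norm_num
    have hrot := hROT θ i₀ m₀ good (by rw [hθa]; positivity) (by rw [hθa]; linarith) ?_ ?_ ?_
    · have h1 : (good.card : ℝ) ≤ 9 / 10 * m₀ := hrot
      linarith
    · rw [hθa]
      have h1 : c₁ ≤ L * |u'| := by
        rw [div_le_iff₀ (by linarith)] at hu'1
        linarith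
      calc (16 : ℝ) ≤ 100 * 0.69 := by norm_num
        _ ≤ (b' * c₁) * Real.log 2 :=
          mul_le_mul hbc (by linarith) (by norm_num) (by positivity)
        _ ≤ (b' * (L * |u'|)) * Real.log 2 := by gcongr
        _ = (b' * L) * (|u'| * Real.log 2) := by ring
        _ ≤ m₀ * (|u'| * Real.log 2) := mul_le_mul_of_nonneg_right hm₀L (by positivity)
    · rw [hgoodd, show i₀ + m₀ = i₁ by omega]
      exact filter_subset _ _
    · intro i hi
      obtain ⟨h1, h2, h3⟩ := hcond i hi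
      set V : ℝ := 2 ^ i * Me P with hV
      have hV0 : 0 < V := by positivity
      have h4 := neg_le_of_abs_le h1
      -- an element with small distance
      obtain ⟨n, hn, hn1⟩ : ∃ n ∈ RO P (2 ^ i), ‖ni u' n - 1‖ ≤ 1 / 10 := by
        by_contra hcon2
        push Not at hcon2
        have h5 : ((RO P (2 ^ i)).card : ℝ) * (1 / 10) ≤ E i := by
          rw [hEdef, ← nsmul_eq_mul, ← sum_const]
          exact sum_le_sum fun n hn => (hcon2 n hn).le
        have h6 : η * V ≤ 1 / 100 * V := mul_le_mul_of_nonneg_right hη1 hV0.le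
        linarith
      have h5 : ‖ni u' n - ni u' (2 ^ i)‖ ≤ |u'| * Real.log 2 := by
        refine (ni_sub_le u' n (2 ^ i)).trans (mul_le_mul_of_nonneg_left ?_ (abs_nonneg _))
        unfold RO at hn
        rw [mem_filter, mem_Ioc] at hn
        have h6 : (0 : ℝ) < ((2 ^ i : ℕ) : ℝ) := by positivity
        have h7 : ((2 ^ i : ℕ) : ℝ) ≤ n := by exact_mod_cast hn.1.1.le
        have h8 : (n : ℝ) ≤ 2 * ((2 ^ i : ℕ) : ℝ) := by exact_mod_cast hn.1.2
        have h9 : Real.log ((2 ^ i : ℕ) : ℝ) ≤ Real.log n := Real.log_le_log h6 h7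
        have h10 : Real.log n ≤ Real.log 2 + Real.log ((2 ^ i : ℕ) : ℝ) := by
          rw [← Real.log_mul (by norm_num) h6.ne']
          exact Real.log_le_log (h6.trans_le h7) h8
        rw [abs_of_nonneg (by linarith)]
        linarith
      have h6 : ‖ni u' (2 ^ i) - 1‖ ≤ 1 / 2 := by
        have h7 : ni u' (2 ^ i) - 1 = (ni u' n - 1) - (ni u' n - ni u' (2 ^ i)) := by ring
        rw [h7]
        refine (norm_sub_le _ _).trans ?_
        linarith
      rw [ni_two_pow] at h6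
      exact h6

end Pool.Agent.H62.VU
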