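import Pool.Agent.H83.VU.TargetsG

/-!
# RGH: rough numbers with a twist by the Brun-Hooley sieve
-/

set_option autoImplicit false

open Finset Pool.Agent.H83.VU

namespace Pool.Agent.H62.VU.RGH

open Pool.Agent.H30.BV (Sf As Er Sad qj PZ lv nl)
open Pool.Agent.H31.MP (Me)

theorem norm_mi_le (u : ℝ) : ‖mi u‖ ≤ 1 := by
  unfold mi
  rw [norm_div]
  have h1 : ‖(1 : ℂ) + (u : ℂ) * Complex.I‖ ^ 2 = 1 + u ^ 2 := by
    rw [← Complex.normSq_eq_norm_sq, Complex.normSq_apply]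
    simp
    ring
  have h2 : ‖(2 : ℂ) * ni u 2 - 1‖ ^ 2 = 5 - 4 * Real.cos (u * Real.log 2) := by
    rw [← Complex.normSq_eq_norm_sq, Complex.normSq_apply]
    unfold ni
    rw [Complex.exp_ofReal_mul_I]
    simp only [Complex.sub_re, Complex.mul_re, Complex.re_ofNat, Complex.add_re,
      Complex.ofReal_re, Complex.I_re, Complex.I_im, Complex.ofReal_im, Complex.im_ofNat,
      Complex.add_im, Complex.mul_im, Complex.one_re, Complex.sub_im, Complex.one_im,
      ← Complex.ofReal_cos, ← Complex.ofReal_sin, Nat.cast_ofNat]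
    nlinarith [Real.sin_sq_add_cos_sq (u * Real.log 2)]
  have h3 : 5 - 4 * Real.cos (u * Real.log 2) ≤ 1 + u ^ 2 := by
    have h4 := Real.one_sub_sq_div_two_le_cos (x := u * Real.log 2)
    have h5 : Real.log 2 < 0.6931471808 := Real.log_two_lt_d9
    have h6 : 0 < Real.log 2 := Real.log_pos (by norm_num)
    have h7 : Real.log 2 ^ 2 ≤ 1 / 2 := by nlinarith
    have h8 : (u * Real.log 2) ^ 2 ≤ u ^ 2 / 2 := by
      rw [mul_pow]
      nlinarith [sq_nonneg u]
    linarith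
  have h9 : 0 < ‖(1 : ℂ) + (u : ℂ) * Complex.I‖ := by
    by_contra hcon
    have : ‖(1 : ℂ) + (u : ℂ) * Complex.I‖ = 0 := le_antisymm (not_lt.1 hcon) (norm_nonneg _)
    rw [this] at h1
    nlinarith [sq_nonneg u]
  rw [div_le_one h9]
  exact le_of_sq_le_sq (by rw [h1, h2]; exact h3) h9.le
where
  le_of_sq_le_sq {a b : ℝ} (h : a ^ 2 ≤ b ^ 2) (hb : 0 ≤ b) : a ≤ b := by
    exact (abs_le_of_sq_le_sq' h hb).2

theorem re_bound (u : ℝ) (N : ℕ) (w : ℂ) (hw : ‖w‖ ≤ 1) : |(w * ni u N * mi u).re| ≤ 1 := by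
  refine (Complex.abs_re_le_norm _).trans ?_
  rw [norm_mul, norm_mul, norm_ni, mul_one]
  calc ‖w‖ * ‖mi u‖ ≤ 1 * 1 := mul_le_mul hw (norm_mi_le u) (norm_nonneg _) zero_le_one
    _ = 1 := one_mul 1

theorem wc_nonneg (u : ℝ) (w : ℂ) (n : ℕ) (hw : ‖w‖ ≤ 1) : 0 ≤ wc u w n := by
  unfold wc
  have h1 : |(w * ni u n).re| ≤ 1 := by
    refine (Complex.abs_re_le_norm _).trans ?_
    rw [norm_mul, norm_ni, mul_one]
    exact hw
  linarith [neg_le_of_abs_le h1]

/-- `RO z N` as the set of the odd numbers without prime factors in `PZ z 2` -/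
theorem mem_RO_iff {z : ℝ} (hz : 3 ≤ z) (N n : ℕ) : n ∈ RO z N ↔
    (n ∈ (Ioc N (2 * N)).filter (fun n => Odd n)) ∧ ∀ p ∈ PZ z 2, ¬ p ∣ n := by
  classical
  unfold RO PZ
  simp only [mem_filter, mem_Ioc, mem_Icc]
  constructor
  · rintro ⟨h1, h2⟩
    refine ⟨⟨h1, ?_⟩, ?_⟩
    · by_contra hodd
      rw [Nat.not_odd_iff_even] at hodd
      have := h2 2 Nat.prime_two hodd.two_dvd
      norm_num at this
      linarith
    · rintro p ⟨⟨-, h3⟩, h4, -⟩ h5
      have h6 := h2 p h4 h5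
      have h7 : (p : ℝ) ≤ z := (Nat.le_floor_iff (by linarith)).1 h3
      linarith
  · rintro ⟨⟨h1, h2⟩, h3⟩
    refine ⟨h1, fun p hp hd => ?_⟩
    by_contra hle
    rw [not_lt] at hle
    have hp2 : p ≠ 2 := by
      rintro rfl
      rw [← Nat.not_even_iff_odd] at h2
      exact h2 (even_iff_two_dvd.2 hd)
    have hp3 : 3 ≤ p := by
      have := hp.two_le
      omega
    exact h3 p ⟨⟨hp3, Nat.le_floor hle⟩, hp, hp2⟩ hd

theorem prod_PZ {z : ℝ} (hz : 3 ≤ z) : ∏ p ∈ PZ z 2, (1 - 1 / (p : ℝ)) = 2 * Me z := by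
  classical
  have h1 : (Icc 1 ⌊z⌋₊).filter Nat.Prime = insert 2 (PZ z 2) := by
    ext p
    unfold PZ
    simp only [mem_filter, mem_insert, mem_Icc]
    constructor
    · rintro ⟨⟨h1, h2⟩, h3⟩
      by_cases h4 : p = 2
      · exact Or.inl h4
      · right
        have := h3.two_le
        exact ⟨⟨by omega, h2⟩, h3, h4⟩
    · rintro (rfl | ⟨⟨h1, h2⟩, h3, h4⟩)
      · exact ⟨⟨by norm_num, Nat.le_floor (by norm_num; linarith)⟩, Nat.prime_two⟩
      · exact ⟨⟨by omega, h2⟩, h3⟩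
  unfold Me
  rw [h1, prod_insert (by unfold PZ; simp)]
  norm_num
  ring

theorem dvd_iff {z : ℝ} {s : Finset ℕ} (hs : s ⊆ PZ z 2) (n : ℕ) :
    (∀ p ∈ s, p ∣ n) ↔ (∏ p ∈ s, p) ∣ n := by
  constructor
  · intro h
    apply Finset.prod_primes_dvd
    · intro p hp
      have := hs hp
      unfold PZ at this
      rw [mem_filter] at this
      exact this.2.1.prime
    · exact h
  · intro h p hp
    exact (Finset.dvd_prod_of_mem _ hp).trans h

theorem odd_prod {z : ℝ} {s : Finset ℕ} (hs : s ⊆ PZ z 2) : Odd (∏ p ∈ s, p) := by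
  classical
  induction s using Finset.induction_on with
  | empty => simp
  | insert a s ha ih =>
    rw [prod_insert ha]
    have h1 := hs (mem_insert_self a s)
    unfold PZ at h1
    rw [mem_filter] at h1
    exact (h1.2.1.odd_of_ne_two h1.2.2).mul (ih fun x hx => hs (mem_insert_of_mem hx))

theorem prod_inv (s : Finset ℕ) : ∏ p ∈ s, (1 / (p : ℝ)) = 1 / ((∏ p ∈ s, p : ℕ) : ℝ) := by
  rw [prod_div_distrib, prod_const_one]
  push_cast
  rfl

theorem Sf_eq (Ω P S : Finset ℕ) (w : ℕ → ℝ) (dv : ℕ → ℕ → Prop)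
    (h : ∀ n, n ∈ S ↔ n ∈ Ω ∧ ∀ p ∈ P, ¬ dv p n) : Sf Ω w dv P = ∑ n ∈ S, w n := by
  classical
  unfold Sf
  apply sum_congr _ fun _ _ => rfl
  ext n
  rw [mem_filter, h]

theorem As_eq (Ω s S : Finset ℕ) (w : ℕ → ℝ) (dv : ℕ → ℕ → Prop)
    (h : ∀ n, n ∈ S ↔ n ∈ Ω ∧ ∀ p ∈ s, dv p n) : As Ω w dv s = ∑ n ∈ S, w n := by
  classical
  unfold As
  apply sum_congr _ fun _ _ => rfl
  ext n
  rw [mem_filter, h]

theorem mem_Sad_subset {P s : Finset ℕ} {lev b : ℕ → ℕ} {t : ℕ} (h : s ∈ Sad P lev b t) : s ⊆ P := by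
  unfold Sad at h
  rw [mem_filter, mem_powerset] at h
  exact h.1

/-- the growth of the error term -/
theorem growth (C : ℝ) (B : ℕ) (η : ℝ) (hη : 0 < η) : ∃ N₁ : ℕ, ∀ N : ℕ, N₁ ≤ N →
    (3 * Real.log N + 1) * (C * Real.log N ^ B) * Real.exp (-((Real.log N / 4) ^ (1 / 6 : ℝ))) *
      Real.log N ≤ η := by
  have h1 : Filter.Tendsto (fun N : ℕ => (Real.log N / 4) ^ (1 / 6 : ℝ)) Filter.atTop
      Filter.atTop := by
    apply (tendsto_rpow_atTop (by norm_num : (0 : ℝ) < 1 / 6)).comp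
    apply Filter.Tendsto.atTop_div_const (by norm_num)
    exact Real.tendsto_log_atTop.comp tendsto_natCast_atTop_atTop
  -- `t = (log N / 4) ^ (1/6)`, `log N = 4 t ^ 6`
  have h2 : Filter.Tendsto (fun t : ℝ => (3 * (4 * t ^ 6) + 1) * (C * (4 * t ^ 6) ^ B) *
      Real.exp (-t) * (4 * t ^ 6)) Filter.atTop (nhds 0) := by
    have h3 : ∀ k : ℕ, Filter.Tendsto (fun t : ℝ => t ^ k * Real.exp (-t)) Filter.atTop (nhds 0) :=
      fun k => Real.tendsto_pow_mul_exp_neg_atTop_nhds_zero k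
    have h4 := ((h3 (6 + 6 * B + 6)).const_mul (12 * C * 4 ^ B * 4)).add
      ((h3 (6 * B + 6)).const_mul (C * 4 ^ B * 4))
    rw [mul_zero, mul_zero, add_zero] at h4
    refine h4.congr fun t => ?_
    rw [mul_pow, ← pow_mul, pow_add, pow_add, pow_add]
    ring
  have h5 := h2.comp h1
  have h6 := h5.eventually (gt_mem_nhds hη)
  obtain ⟨N₁, hN₁⟩ := Filter.eventually_atTop.1 h6
  refine ⟨max N₁ 1, fun N hN => ?_⟩
  have h7 := hN₁ N ((le_max_left _ _).trans hN)
  have h8 : 0 ≤ Real.log N / 4 := div_nonneg (Real.log_natCast_nonneg N) (by norm_num)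
  have h9 : 4 * ((Real.log N / 4) ^ (1 / 6 : ℝ)) ^ 6 = Real.log N := by
    rw [← Real.rpow_natCast, ← Real.rpow_mul h8]
    norm_num
    ring
  simp only [Function.comp_apply, h9] at h7
  exact h7.le

end Pool.Agent.H62.VU.RGH

namespace Pool.Agent.H62.VU

open RGH
open Pool.Agent.H30.BV (Sf As Er Sad qj PZ lv nl)
open Pool.Agent.H31.MP (Me)

/-- the sieve estimate for one weight -/
theorem RGH.star (hODD : T_ODD) (hMET : T_MET) (hBL : Pool.Agent.H30.BV.T_BL)
    (hBU : Pool.Agent.H30.BV.T_BU) (hQK : Pool.Agent.H31.MP.T_QK) (hSD : Pool.Agent.H31.MP.T_SD)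
    (η : ℝ) (hη : 0 < η) (hη1 : η ≤ 1) : ∃ B N₀ : ℕ, ∀ N : ℕ, N₀ ≤ N → ∀ z : ℝ, 3 ≤ z →
    z ^ B ≤ (N : ℝ) → 0 < Me z ∧
    ∀ u : ℝ, |u| ≤ Real.exp ((Real.log N / 4) ^ (13 / 12 : ℝ)) → ∀ w : ℂ, ‖w‖ ≤ 1 →
    |∑ n ∈ RO z N, wc u w n - N * Me z * (1 + (w * ni u N * mi u).re)| ≤ 5 * η * (N * Me z) := by
  classical
  obtain ⟨N₀, hN₀⟩ := hODD
  obtain ⟨C', hC', hMET⟩ := hMET
  obtain ⟨b, hb⟩ := hQK 1 η hη
  obtain ⟨C, B₁, hC, hSD⟩ := hSD 1
  obtain ⟨N₁, hN₁⟩ := growth (C * C') B₁ η hη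
  refine ⟨2 * (4 * b + 6), max N₀ N₁, fun N hN z hz hzN => ?_⟩
  have hN0 : N₀ ≤ N := (le_max_left _ _).trans hN
  have hN1 : N₁ ≤ N := (le_max_right _ _).trans hN
  obtain ⟨-, -, -, hMe⟩ := hMET z 1 (by linarith) le_rfl
  have hlz : 1 ≤ Real.log z := by
    rw [Real.le_log_iff_exp_le (by linarith)]
    have := Real.exp_one_lt_d9
    linarith
  have hMe0 : 0 < Me z := lt_of_lt_of_le (by positivity) hMe
  refine ⟨hMe0, fun u hu w hw => ?_⟩
  have hz1 : 1 ≤ z := by linarith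
  have hzleN : z ≤ N := (le_self_pow₀ hz1 (by omega)).trans hzN
  have hNpos : (0 : ℝ) < N := by linarith
  have hlzN : Real.log z ≤ Real.log N := Real.log_le_log (by linarith) hzleN
  have hzhalf : z ^ (4 * b + 6) ≤ (N : ℝ) ^ (1 / 2 : ℝ) := by
    have h1 : (z ^ (4 * b + 6)) ^ 2 ≤ ((N : ℝ) ^ (1 / 2 : ℝ)) ^ 2 := by
      rw [← pow_mul, mul_comm, ← Real.rpow_natCast ((N : ℝ) ^ (1 / 2 : ℝ)), ← Real.rpow_mul hNpos.le]
      norm_num
      exact hzN
    exact (abs_le_of_sq_le_sq' h1 (by positivity)).2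
  set P := PZ z 2 with hP
  set Ω := (Ioc N (2 * N)).filter (fun n => Odd n) with hΩ
  set R := (w * ni u N * mi u).re with hR
  have hRb : |R| ≤ 1 := re_bound u N w hw
  set Z : ℝ := N / 2 * (1 + R) with hZdef
  have hZ0 : 0 ≤ Z := mul_nonneg (by positivity) (by linarith [neg_le_of_abs_le hRb])
  have hZN : Z ≤ N := by
    have : 1 + R ≤ 2 := by linarith [le_of_abs_le hRb]
    calc Z ≤ N / 2 * 2 := mul_le_mul_of_nonneg_left this (by positivity)
      _ = N := by ring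
  let g : ℕ → ℝ := fun p => 1 / p
  have hPmem : ∀ p ∈ P, 3 ≤ p := by
    intro p hp
    rw [hP] at hp
    unfold PZ at hp
    rw [mem_filter, mem_Icc] at hp
    exact hp.1.1
  have hg : ∀ p ∈ P, 0 ≤ g p ∧ g p ≤ ((1 : ℕ) : ℝ) / p ∧ g p ≤ 1 / 2 := by
    intro p hp
    have h3 : (3 : ℝ) ≤ p := by exact_mod_cast hPmem p hp
    refine ⟨by positivity, by simp [g], ?_⟩
    exact one_div_le_one_div_of_le (by norm_num) (by linarith)
  have hq := hb z P g hz subset_rfl hg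
  obtain ⟨hS1, hS2, hS3, hS4⟩ := hSD z P g b hz subset_rfl (fun p hp => ⟨(hg p hp).1, (hg p hp).2.1⟩)
  have hg' : ∀ p ∈ P, 0 ≤ g p ∧ g p < 1 := fun p hp => ⟨(hg p hp).1, by linarith [(hg p hp).2.2]⟩
  have hbl := hBL Ω P (wc u w) (fun p n => p ∣ n) (lv z) (fun j => b + j) (nl z) g Z
    (fun n _ => wc_nonneg u w n hw) hZ0 hg' hS3
  have hbu := hBU Ω P (wc u w) (fun p n => p ∣ n) (lv z) (fun j => b + j) (nl z) g Z
    (fun n _ => wc_nonneg u w n hw) hZ0 hg' hS3
  have hSf : Sf Ω (wc u w) (fun p n => p ∣ n) P = ∑ n ∈ RO z N, wc u w n :=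
    Sf_eq _ _ _ _ _ fun n => mem_RO_iff hz N n
  have hV : ∏ p ∈ P, (1 - g p) = 2 * Me z := prod_PZ hz
  rw [hSf, hV] at hbl hbu
  -- the error term
  have hEr : Er Ω (wc u w) (fun p n => p ∣ n) g Z P (lv z) (fun j => b + j) (nl z) ≤
      N * Real.exp (-((Real.log N / 4) ^ (1 / 6 : ℝ))) * (C * Real.log z ^ B₁) := by
    unfold Er
    calc ∑ s ∈ Sad P (lv z) (fun j => b + j) (nl z), |As Ω (wc u w) (fun p n => p ∣ n) s -
          Z * ∏ p ∈ s, g p|
        ≤ ∑ s ∈ Sad P (lv z) (fun j => b + j) (nl z), N *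
          Real.exp (-((Real.log N / 4) ^ (1 / 6 : ℝ))) * ∏ p ∈ s, g p := by
          apply sum_le_sum
          intro s hs
          have hsP := mem_Sad_subset hs
          have hd : ((∏ p ∈ s, p : ℕ) : ℝ) ≤ (N : ℝ) ^ (1 / 2 : ℝ) := (hS1 s hs).trans hzhalf
          have h1 := hN₀ N (∏ p ∈ s, p) u w hN0 (odd_prod hsP) hd hu hw
          have h2 : As Ω (wc u w) (fun p n => p ∣ n) s =
              ∑ n ∈ (Ioc N (2 * N)).filter (fun n => Odd n ∧ (∏ p ∈ s, p) ∣ n), wc u w n := by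
            apply As_eq
            intro n
            rw [dvd_iff hsP, hΩ, mem_filter, mem_filter, and_assoc]
          have h3 : ∏ p ∈ s, g p = 1 / ((∏ p ∈ s, p : ℕ) : ℝ) := prod_inv s
          rw [h2, h3]
          calc _ = |∑ n ∈ (Ioc N (2 * N)).filter (fun n => Odd n ∧ (∏ p ∈ s, p) ∣ n), wc u w n -
                (N : ℝ) / 2 * (1 + (w * ni u N * mi u).re) / ((∏ p ∈ s, p : ℕ) : ℝ)| := by
                rw [hZdef, hR]
                congr 2
                ring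
            _ ≤ _ := h1
            _ = _ := by ring
      _ = N * Real.exp (-((Real.log N / 4) ^ (1 / 6 : ℝ))) *
          ∑ s ∈ Sad P (lv z) (fun j => b + j) (nl z), ∏ p ∈ s, g p := by rw [← mul_sum]
      _ ≤ _ := mul_le_mul_of_nonneg_left hS2 (by positivity)
  have hEr0 : 0 ≤ Er Ω (wc u w) (fun p n => p ∣ n) g Z P (lv z) (fun j => b + j) (nl z) := by
    unfold Er
    exact sum_nonneg fun _ _ => abs_nonneg _
  have hgrow := hN₁ N hN1
  have hErt : ((nl z : ℝ) + 1) *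
      Er Ω (wc u w) (fun p n => p ∣ n) g Z P (lv z) (fun j => b + j) (nl z) ≤ η * (N * Me z) := by
    set E := Real.exp (-((Real.log N / 4) ^ (1 / 6 : ℝ))) with hE
    have hE0 : 0 < E := Real.exp_pos _
    have hlN : 1 ≤ Real.log N := hlz.trans hlzN
    calc ((nl z : ℝ) + 1) *
          Er Ω (wc u w) (fun p n => p ∣ n) g Z P (lv z) (fun j => b + j) (nl z)
        ≤ (3 * Real.log N + 1) * (N * E * (C * Real.log N ^ B₁)) := by
          apply mul_le_mul
          · linarith [hS4, hlzN]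
          · refine hEr.trans ?_
            gcongr
          · exact hEr0
          · linarith
      _ = N * (1 / (C' * Real.log N)) * ((3 * Real.log N + 1) * (C * C' * Real.log N ^ B₁) * E *
            Real.log N) := by
          field_simp
      _ ≤ N * (1 / (C' * Real.log N)) * η := by
          exact mul_le_mul_of_nonneg_left hgrow (by positivity)
      _ ≤ N * Me z * η := by
          apply mul_le_mul_of_nonneg_right _ hη.le
          apply mul_le_mul_of_nonneg_left _ hNpos.le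
          refine le_trans ?_ hMe
          apply one_div_le_one_div_of_le (by positivity)
          exact mul_le_mul_of_nonneg_left hlzN hC'.le
      _ = η * (N * Me z) := by ring
  -- conclusion
  set Erv := Er Ω (wc u w) (fun p n => p ∣ n) g Z P (lv z) (fun j => b + j) (nl z) with hErv
  set Q := ∑ j ∈ range (nl z), qj P (lv z) g j ((fun j => b + j) j) with hQ
  have hQη : Q ≤ η := hq
  have hnl : (0 : ℝ) ≤ nl z := Nat.cast_nonneg _
  have hErv1 : Erv ≤ η * (N * Me z) := by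
    refine le_trans ?_ hErt
    nlinarith
  have hmain : Z * (2 * Me z) = N * Me z * (1 + R) := by rw [hZdef]; ring
  have hZM : Z * (2 * Me z) ≤ 2 * (N * Me z) := by
    calc Z * (2 * Me z) ≤ N * (2 * Me z) := mul_le_mul_of_nonneg_right hZN (by positivity)
      _ = _ := by ring
  have hZM0 : 0 ≤ Z * (2 * Me z) := by positivity
  have hexp : Real.exp Q ≤ 1 + 2 * η := by
    calc Real.exp Q ≤ Real.exp η := Real.exp_le_exp.2 hQη
      _ ≤ 1 + η + η ^ 2 := by
        have := Real.abs_exp_sub_one_sub_id_le (x := η) (by rw [abs_of_pos hη]; exact hη1)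
        linarith [le_of_abs_le this]
      _ ≤ 1 + 2 * η := by nlinarith
  rw [← hmain, abs_le]
  constructor
  · have h1 : Z * (2 * Me z) * (1 - Q) ≥ Z * (2 * Me z) * (1 - η) :=
      mul_le_mul_of_nonneg_left (by linarith) hZM0
    nlinarith [mul_le_mul_of_nonneg_left hZM hη.le]
  · have h1 : Z * (2 * Me z) * Real.exp Q ≤ Z * (2 * Me z) * (1 + 2 * η) :=
      mul_le_mul_of_nonneg_left hexp hZM0
    nlinarith [mul_le_mul_of_nonneg_left hZM hη.le]

/-- RGH -/
theorem pf_RGH (hODD : T_ODD) (hMET : T_MET) (hBL : Pool.Agent.H30.BV.T_BL)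
    (hBU : Pool.Agent.H30.BV.T_BU) (hQK : Pool.Agent.H31.MP.T_QK)
    (hSD : Pool.Agent.H31.MP.T_SD) : T_RGH := by
  intro η hη
  obtain ⟨B, N₀, h⟩ := RGH.star hODD hMET hBL hBU hQK hSD (min η 1 / 10)
    (by positivity) (by linarith [min_le_right η 1])
  refine ⟨B, N₀, fun N hN z hz hzN u hu => ?_⟩
  obtain ⟨hMe, hstar⟩ := h N hN z hz hzN
  have hmin : min η 1 ≤ η := min_le_left _ _
  have hNM : 0 ≤ (N : ℝ) * Me z := by positivity
  have h0 := hstar u hu 0 (by simp)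
  have hcard : ∑ n ∈ RO z N, wc u 0 n = (RO z N).card := by
    unfold wc
    simp
  rw [hcard] at h0
  simp only [zero_mul, Complex.zero_re, add_zero, mul_one] at h0
  refine ⟨h0.trans ?_, ?_⟩
  · exact mul_le_mul_of_nonneg_right (by linarith) hNM
  · set D : ℂ := ∑ n ∈ RO z N, ni u n - N * Me z * (ni u N * mi u) with hD
    by_cases hD0 : D = 0
    · rw [hD0, norm_zero]
      positivity
    set w : ℂ := (starRingEnd ℂ) D / ‖D‖ with hw
    have hDn : (‖D‖ : ℂ) ≠ 0 := by exact_mod_cast norm_ne_zero_iff.2 hD0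
    have hwn : ‖w‖ ≤ 1 := by
      rw [hw, norm_div, Complex.norm_conj, Complex.norm_real, norm_norm, div_self]
      exact norm_ne_zero_iff.2 hD0
    have hwD : w * D = ‖D‖ := by
      rw [hw, div_mul_eq_mul_div, mul_comm ((starRingEnd ℂ) D), Complex.mul_conj,
        Complex.normSq_eq_norm_sq]
      field_simp
      push_cast
      ring
    have h1 := hstar u hu w hwn
    have hsum : ∑ n ∈ RO z N, wc u w n = (RO z N).card + (w * ∑ n ∈ RO z N, ni u n).re := by
      unfold wc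
      rw [sum_add_distrib, mul_sum, Complex.re_sum]
      simp
    have hre : (w * D).re = (w * ∑ n ∈ RO z N, ni u n).re - N * Me z * (w * ni u N * mi u).re := by
      rw [hD, mul_sub, Complex.sub_re]
      congr 1
      rw [show w * ((N : ℂ) * (Me z : ℂ) * (ni u N * mi u)) =
        ((N * Me z : ℝ) : ℂ) * (w * ni u N * mi u) by push_cast; ring, Complex.re_ofReal_mul]
    rw [hwD, Complex.ofReal_re] at hre
    rw [hsum] at h1
    have h2 := le_of_abs_le h1
    have h3 := neg_le_of_abs_le h0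
    nlinarith [mul_le_mul_of_nonneg_right hmin hNM]

end Pool.Agent.H62.VU
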